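import Pool.Agent.Run7.h148.NC.Core

/-!
# Approximate null control in small time, for an open and weakly dense set of initial data

Let `Ω` be a bounded open set in `ℝ³`, `ν > 0`, and let `0 < τ ≤ T` and `ε > 0` be arbitrarily
small. There is an open set `O` in `L²(Ω)³` such that

* every Leray-Hopf solution with zero values on the whole boundary (a trajectory without any
  control) which starts in `O` has `‖u(t)‖ ≤ ε` for `τ ≤ t ≤ T`;
* near every `u₀ ∈ L²_σ(Ω)`, in the sense of distributions in `Ω`, there are smooth divergence free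
  fields with compact support in `Ω` which belong to `O`, and from which a strong solution starts.

The same with a prescribed target flow `U`: `‖u(t) - U(t)‖ ≤ ε` for `τ ≤ t ≤ T`.

The second item comes from the construction of the flows of `MP_fd8964_an`, `DirichletFlowDensity`
(interior waves of high frequency whose Reynolds stress transforms the slow part of `v₀` into `U(0)`
before they are dissipated). The first item is the energy method for the difference from such a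
flow.
-/

set_option autoImplicit false

open MeasureTheory Set
open scoped InnerProductSpace ContDiff

namespace Pool.Agent.Results.MP_79abb3_an.OpenWeaklyDense

open H772R2.NS.Pub Pool.Agent.W795.TQ

/-- `v` is a smooth divergence free field with compact support in `Ω`, its integrals against the
fields `φ_i` are those of `u₀` up to `η`, and there is a flow from `v` which is a strong solution on
every interval `[0,S]` (no force, zero boundary values). -/
def IsApproximation (Ω : Set R3) (ν : ℝ) (u₀ : L2 Ω R3) {n : ℕ} (φ : Fin n → R3 → R3) (η : ℝ)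
    (v : L2 Ω R3) : Prop :=
  ∃ (v₀ : R3 → R3) (u u' : ℝ → L2 Ω R3) (D D' : ℝ → L2 Ω Mat),
    IsTest Ω v₀ ∧ IsClass v v₀ ∧ u 0 = v ∧
    (∀ i, |(∫ x in Ω, ⟪v₀ x, φ i x⟫_ℝ) - ∫ x in Ω, ⟪u₀.fn x, φ i x⟫_ℝ| ≤ η) ∧
    ∀ S, 0 < S → IsStrong Ω ν S (fun _ => 0) u u' D D'

/-- `O` is dense in `L²_σ(Ω)` in the sense of distributions in `Ω`, by smooth data of global strong
flows: for every `u₀ ∈ L²_σ(Ω)`, finitely many smooth fields `φ_i` with compact support in `Ω` and
`η > 0` it contains a `v` with `IsApproximation Ω ν u₀ φ η v`. -/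
def IsWeaklyDense (Ω : Set R3) (ν : ℝ) (O : Set (L2 Ω R3)) : Prop :=
  ∀ u₀ ∈ L2sigma Ω, ∀ (n : ℕ) (φ : Fin n → R3 → R3),
    (∀ i, ContDiff ℝ ∞ (φ i) ∧ HasCompactSupport (φ i) ∧ tsupport (φ i) ⊆ Ω) →
    ∀ η : ℝ, 0 < η → ∃ v ∈ O, IsApproximation Ω ν u₀ φ η v

/-- Let `Ω` be a bounded open set in `ℝ³`, `ν > 0`, `0 < τ ≤ T`, `ε > 0`.
1. There is an open set `O` of initial values, dense in `L²_σ(Ω)` in the sense of distributions,
   such that `‖u(t)‖ ≤ ε` for `τ ≤ t ≤ T` for every Leray-Hopf solution `u` on `[0,T]`, without force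
   and with zero boundary values, which starts in `O`.
2. For every flow `U` which is a strong solution on every `[0,S]` there is an open set `O` of initial
   values, dense in `L²_σ(Ω)` in the sense of distributions, such that `‖u(t) - U(t)‖ ≤ ε` for
   `τ ≤ t ≤ T` for every Leray-Hopf solution `u` on `[0,T]` which starts in `O`. -/
theorem result (Ω : Set R3) (hΩ : IsOpen Ω) (hb : Bornology.IsBounded Ω) (ν : ℝ) (hν : 0 < ν)
    (τ T ε : ℝ) (hτ : 0 < τ) (hτT : τ ≤ T) (hε : 0 < ε) :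
    (∃ O : Set (L2 Ω R3), IsOpen O ∧ IsWeaklyDense Ω ν O ∧
      ∀ (u : ℝ → L2 Ω R3) (D : ℝ → L2 Ω Mat), IsLerayHopf Ω ν T (fun _ => 0) u D → u 0 ∈ O →
        ∀ t ∈ Icc τ T, ‖u t‖ ≤ ε) ∧
    ∀ (U U' : ℝ → L2 Ω R3) (G G' : ℝ → L2 Ω Mat),
      (∀ S, 0 < S → IsStrong Ω ν S (fun _ => 0) U U' G G') →
      ∃ O : Set (L2 Ω R3), IsOpen O ∧ IsWeaklyDense Ω ν O ∧
        ∀ (u : ℝ → L2 Ω R3) (D : ℝ → L2 Ω Mat), IsLerayHopf Ω ν T (fun _ => 0) u D → u 0 ∈ O →
          ∀ t ∈ Icc τ T, ‖u t - U t‖ ≤ ε := by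
  have main : ∀ (U U' : ℝ → L2 Ω R3) (G G' : ℝ → L2 Ω Mat),
      (∀ S, 0 < S → IsStrong Ω ν S (fun _ => 0) U U' G G') →
      ∃ O : Set (L2 Ω R3), IsOpen O ∧ IsWeaklyDense Ω ν O ∧
        ∀ (u : ℝ → L2 Ω R3) (D : ℝ → L2 Ω Mat), IsLerayHopf Ω ν T (fun _ => 0) u D → u 0 ∈ O →
          ∀ t ∈ Icc τ T, ‖u t - U t‖ ≤ ε := by
    intro U U' G G' hU
    have hT : 0 < T := hτ.trans_le hτT
    set A : Set (L2 Ω R3) := {x | ∀ (u : ℝ → L2 Ω R3) (D : ℝ → L2 Ω Mat),
      IsLerayHopf Ω ν T (fun _ => 0) u D → u 0 = x → ∀ t ∈ Icc τ T, ‖u t - U t‖ ≤ ε} with hA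
    refine ⟨interior A, isOpen_interior, ?_, fun u D L h0 t ht =>
      (interior_subset h0 : u 0 ∈ A) u D L rfl t ht⟩
    intro u₀ hu₀ n φ hφ η hη
    set κ : ℝ := min η (min τ (ε / 2)) with hκ
    have hκ0 : 0 < κ := lt_min hη (lt_min hτ (by positivity))
    obtain ⟨v₀, u, u', D, D', h1, h2, h3, h4, h5⟩ :=
      Run7.h744.DD.t_all Ω hΩ hb ν hν U U' G G' hU u₀ hu₀ n φ hφ κ hκ0
    refine ⟨u 0, ?_, v₀, u, u', D, D', h1, h2, rfl, fun i => (h4 i).trans (min_le_left _ _), h3⟩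
    obtain ⟨δ, hδ, hs⟩ := Run7.h148.NC.stab_pub hΩ hb hν hT (h3 T hT) (ε := ε / 2) (by positivity)
    rw [mem_interior]
    refine ⟨Metric.ball (u 0) δ, ?_, Metric.isOpen_ball, Metric.mem_ball_self hδ⟩
    intro x hx w E L hw t ht
    have k1 : ‖w 0 - u 0‖ < δ := by
      rw [hw, ← dist_eq_norm]
      exact Metric.mem_ball.1 hx
    have k2 := hs w E L k1 t ⟨hτ.le.trans ht.1, ht.2⟩
    have k3 := (h5 t (((min_le_right _ _).trans (min_le_left _ _)).trans ht.1)).1
    have k4 : κ ≤ ε / 2 := (min_le_right _ _).trans (min_le_right _ _)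
    calc ‖w t - U t‖ = ‖(w t - u t) + (u t - U t)‖ := by rw [sub_add_sub_cancel]
      _ ≤ ‖w t - u t‖ + ‖u t - U t‖ := norm_add_le _ _
      _ ≤ ε := by linarith
  refine ⟨?_, main⟩
  obtain ⟨O, h1, h2, h3⟩ := main (fun _ => 0) (fun _ => 0) (fun _ => 0) (fun _ => 0)
    (fun S _ => Run7.h744.DD.strong_zero Ω ν S)
  refine ⟨O, h1, h2, fun u D L h0 t ht => ?_⟩
  have h4 := h3 u D L h0 t ht
  simp only [sub_zero] at h4
  exact h4

end Pool.Agent.Results.MP_79abb3_an.OpenWeaklyDense
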